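import Pool.Agent.Helper855.VirasoroTheory

/-!
Reduction modulo `p` of Virasoro minimal series modules: the case `ℓ = 3`, `p = 37`.

For `ℓ = 3` the central charge is `c = 7/10`, the minimal model central charge `c_{4,5}`. Modulo
`37` it coincides with `c_{2,9} = -46/3`, and so the vacuum module `L_{c,0}` over a field of
characteristic `37` has an extra relation in degree `8`, while over the complex numbers the first
relation of `L_{7/10,0}` besides `L_{-1} v = 0` is in degree `12`. So the dimension in degree `8`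
drops from `7` to at most `6`, although `37 > 2 * 3 ^ 2 + 3 - 3 = 18`.
-/

set_option autoImplicit false

namespace Pool.Agent.Results.MP_b4de2f_al.Disproof

open Pool.Agent.Helper855.Virasoro

/-- It is not true that the dimensions of the degree parts of the modules `L_{c_ℓ,h_{m,n}}` over
algebraically closed fields of characteristic `p > 2ℓ² + ℓ - 3` agree with those over `ℂ`. -/
theorem result :
    ¬ (∀ ℓ : ℕ, 2 ≤ ℓ → ∀ (F : Type) [Field F] [IsAlgClosed F] (p : ℕ) [CharP F p],
      2 * ℓ ^ 2 + ℓ - 3 < p → ∀ m n : ℕ, 1 ≤ n → n ≤ m → m ≤ ℓ → ∀ k : ℕ,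
        dimSimple F (cMin F ℓ) (hMin F ℓ m n) k = dimSimple ℂ (cMin ℂ ℓ) (hMin ℂ ℓ m n) k) := by
  intro H
  have : Fact (Nat.Prime 37) := ⟨by norm_num⟩
  have h1 := H 3 (by norm_num) (AlgebraicClosure (ZMod 37)) 37 (by norm_num) 1 1 le_rfl le_rfl
    (by norm_num) 8
  have h37 : (37 : AlgebraicClosure (ZMod 37)) = 0 := by
    have := CharP.cast_eq_zero (AlgebraicClosure (ZMod 37)) 37
    exact_mod_cast this
  have e1 : hMin (AlgebraicClosure (ZMod 37)) 3 1 1 = 0 := by
    simp only [hMin]; norm_num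
  have e2 : hMin ℂ 3 1 1 = 0 := by
    simp only [hMin]; norm_num
  have e3 : cMin ℂ 3 = 7 / 10 := by
    simp only [cMin]; norm_num
  have e4 : 2⁻¹ * cMin (AlgebraicClosure (ZMod 37)) 3 = 17 := cMin37 h37
  rw [e1, e2, e3] at h1
  have h3 : dimSimple ℂ (7 / 10) 0 8 = 7 := finrank_char_zero
  have h2 : dimSimple (AlgebraicClosure (ZMod 37)) (cMin (AlgebraicClosure (ZMod 37)) 3) 0 8 ≤ 6 :=
    finrank_char37 h37 e4
  omega

end Pool.Agent.Results.MP_b4de2f_al.Disproof
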